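import Pool.Agent.H55.TkF3

open Set Filter Pool.Agent.H33.DiaDefs
open Cardinal hiding univ

namespace Pool.Agent.Results.MP_a0a263_lc.DiamondGap

/-- Tukey-top: continuum many members (indexed by the subsets of `ℕ`), no countably infinite
subfamily of which has its intersection in `U`. -/
def TukeyTop (U : Ultrafilter ℕ) : Prop :=
  ∃ A : Set ℕ → Set ℕ, (∀ i, A i ∈ U) ∧
    ∀ I : Set (Set ℕ), I.Countable → I.Infinite → (⋂ i ∈ I, A i) ∉ U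

/-- The principle diamond-minus of `U`. -/
def DiaMinus (U : Ultrafilter ℕ) : Prop :=
  ∃ (f π : ℕ → ℕ) (𝒜 : ℕ → Set (Set ℕ)), (∀ n, ∀ s ∈ 𝒜 n, s ⊆ Iio (f n)) ∧
    (∀ n, (𝒜 n).encard ≤ π n) ∧ (∀ g : ℕ → ℕ, {n | g (π n) < f n} ∈ U) ∧
    #{X : Set ℕ | {n | X ∩ Iio (f n) ∈ 𝒜 n} ∈ U} = 𝔠

def NT {Y : Type} (U : Ultrafilter Y) : Prop := ∀ D : W → Set Y, (∀ ξ, D ξ ∈ U) →
    ∃ I : Set W, I.Infinite ∧ (⋂ ξ ∈ I, D ξ) ∈ U

lemma inj (t : Set (Set ℕ)) (ht : t.Finite) :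
    ∃ g, ∀ N, g < N → InjOn (fun X => X ∩ Iio N) t := by
  have : ∀ q : Set ℕ × Set ℕ, ∃ d, (d ∈ q.1 ↔ d ∈ q.2) → q.1 = q.2 := fun q => by
    by_cases h : q.1 = q.2
    · exact ⟨0, fun _ => h⟩
    · obtain ⟨d, hd⟩ := not_forall.1 fun k => h (Set.ext k)
      exact ⟨d, fun k => absurd k hd⟩
  choose d hd using this
  obtain ⟨g, hg⟩ := ((ht.prod ht).image d).bddAbove
  refine ⟨g, fun N hN X hX Y hY h => hd (X, Y) ?_⟩
  have h1 : d (X, Y) < N := lt_of_le_of_lt (hg ⟨(X, Y), ⟨hX, hY⟩, rfl⟩) hN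
  have h2 : X ∩ Iio N = Y ∩ Iio N := h
  exact ⟨fun k => (h2.subset ⟨k, h1⟩).1, fun k => (h2.symm.subset ⟨k, h1⟩).1⟩

lemma key {Y : Type} {U : Ultrafilter Y} (hU : NT U) (f π : Y → ℕ) (𝒜 : Y → Set (Set ℕ))
    (hc : ∀ n, (𝒜 n).encard ≤ π n) (h1 : ∀ g : ℕ → ℕ, {n | g (π n) < f n} ∈ U) :
    {X : Set ℕ | {n | X ∩ Iio (f n) ∈ 𝒜 n} ∈ U}.Countable := by
  by_contra h
  obtain ⟨κ⟩ := (Cardinal.le_def W {X : Set ℕ | {n | X ∩ Iio (f n) ∈ 𝒜 n} ∈ U}).1 (by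
    rw [mk_W]
    exact not_lt.1 fun k => h (le_aleph0_iff_set_countable.1
      (Order.lt_succ_iff.1 (k.trans_eq succ_aleph0.symm))))
  obtain ⟨I, i1, i2⟩ := hU (fun ξ => {n | (κ ξ).1 ∩ Iio (f n) ∈ 𝒜 n}) fun ξ => (κ ξ).2
  have hI : ((fun ξ => (κ ξ).1) '' I).Infinite :=
    i1.image (Subtype.val_injective.comp κ.injective).injOn
  choose t ht1 ht2 ht3 using fun m : ℕ => hI.exists_subset_ncard_eq (m + 1)
  choose g hg using fun m => inj (t m) (ht2 m)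
  obtain ⟨n, hn1, hn2⟩ := Ultrafilter.nonempty_of_mem (inter_mem i2 (h1 g))
  have h2 : (fun X => X ∩ Iio (f n)) '' t (π n) ⊆ 𝒜 n := by
    rintro _ ⟨X, hX, rfl⟩
    obtain ⟨ξ, h3, rfl⟩ := ht1 _ hX
    exact mem_iInter₂.1 hn1 ξ h3
  have h3 := (encard_le_encard h2).trans (hc n)
  rw [(hg _ _ hn2).encard_image, ← (ht2 _).cast_ncard_eq, ht3] at h3
  have h4 : π n + 1 ≤ π n := by exact_mod_cast h3
  omega

lemma fin_const {Y Z : Type} (V : Ultrafilter Y) (φ : Y → Z) {T : Set Z} (hT : T.Finite)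
    (h : {q | φ q ∈ T} ∈ V) : ∃ z, {q | φ q = z} ∈ V := by
  obtain ⟨z, -, hz⟩ := Ultrafilter.eq_pure_of_finite_mem (f := V.map φ) hT h
  refine ⟨z, ?_⟩
  have : ({z} : Set Z) ∈ V.map φ := by
    rw [hz]
    exact Ultrafilter.mem_pure.2 rfl
  exact this

lemma prod {Y : Type} [Countable Y] {U V : Ultrafilter Y} (hU : NT U) (hV : NT V)
    (f π : Y → Y → ℕ) (𝒜 : Y → Y → Set (Set ℕ)) (hs : ∀ p q, ∀ s ∈ 𝒜 p q, s ⊆ Iio (f p q))
    (hc : ∀ p q, (𝒜 p q).encard ≤ π p q)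
    (h1 : ∀ g : ℕ → ℕ, {p | {q | g (π p q) < f p q} ∈ V} ∈ U) :
    {X : Set ℕ | {p | {q | X ∩ Iio (f p q) ∈ 𝒜 p q} ∈ V} ∈ U}.Countable := by
  classical
  rcases U.mem_or_compl_mem {p | ∀ g : ℕ → ℕ, {q | g (π p q) < f p q} ∈ V} with hG | hG
  · refine ((to_countable {p | ∀ g : ℕ → ℕ, {q | g (π p q) < f p q} ∈ V}).biUnion fun p hp =>
      key hV (f p) (π p) (𝒜 p) (hc p) hp).mono fun X hX => ?_
    obtain ⟨p, h2, h3⟩ := Ultrafilter.nonempty_of_mem (inter_mem hG hX)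
    exact mem_biUnion h2 h3
  have hg : ∀ p, ∃ g : ℕ → ℕ, p ∈ {p | ∀ g : ℕ → ℕ, {q | g (π p q) < f p q} ∈ V}ᶜ →
      {q | f p q ≤ g (π p q)} ∈ V := fun p => by
    by_cases h : ∀ g : ℕ → ℕ, {q | g (π p q) < f p q} ∈ V
    · exact ⟨id, fun k => absurd h k⟩
    · obtain ⟨g, k⟩ := not_forall.1 h
      exact ⟨g, fun _ => mem_of_superset (Ultrafilter.compl_mem_iff_notMem.2 k)
        fun q hq => (not_lt.1 fun k' => hq k' : f p q ≤ g (π p q))⟩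
  choose g hg using hg
  obtain ⟨e, he⟩ := Countable.exists_injective_nat Y
  choose G hG' using fun m =>
    (((finite_Iic m).preimage he.injOn).image fun p => g p m).bddAbove
  have hq : ∀ p, ∃ q0, p ∈ {p | ∀ g : ℕ → ℕ, {q | g (π p q) < f p q} ∈ V}ᶜ ∩
      {p | {q | G (π p q) < f p q} ∈ V} →
      {q | (f p q, π p q, 𝒜 p q) = (f p q0, π p q0, 𝒜 p q0)} ∈ V := by
    intro p
    obtain ⟨q1, -⟩ := Ultrafilter.nonempty_of_mem (univ_mem : univ ∈ (V : Filter Y))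
    by_cases hp : p ∈ {p | ∀ g : ℕ → ℕ, {q | g (π p q) < f p q} ∈ V}ᶜ ∩
      {p | {q | G (π p q) < f p q} ∈ V}
    swap
    · exact ⟨q1, fun k => absurd k hp⟩
    obtain ⟨m, hm⟩ := fin_const V (π p) (finite_Iio (e p))
      (mem_of_superset (inter_mem (hg p hp.1) hp.2) fun q ⟨k1, k2⟩ => by
        by_contra k3
        have k4 : e p ≤ π p q := not_lt.1 fun k => k3 k
        have k5 : g p (π p q) ≤ G (π p q) := hG' _ ⟨p, k4, rfl⟩
        have k6 : f p q ≤ g p (π p q) := k1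
        have k7 : G (π p q) < f p q := k2
        omega)
    obtain ⟨z, hz⟩ := fin_const V (fun q => (f p q, π p q, 𝒜 p q))
      ((finite_Iic (g p m)).prod ((finite_singleton m).prod
        (finite_Iio (g p m)).finite_subsets.finite_subsets))
      (mem_of_superset (inter_mem (hg p hp.1) hm) fun q ⟨k1, k2⟩ => by
        have k3 : π p q = m := k2
        have k4 : f p q ≤ g p m := k3 ▸ k1
        exact ⟨k4, k3, fun s k5 => (hs p q s k5).trans (Iio_subset_Iio k4)⟩)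
    obtain ⟨q0, k⟩ := Ultrafilter.nonempty_of_mem hz
    have k' : (f p q0, π p q0, 𝒜 p q0) = z := k
    exact ⟨q0, fun _ => k' ▸ hz⟩
  choose q0 hq using hq
  have hB := inter_mem hG (h1 G)
  refine (key hU (fun p => f p (q0 p)) (fun p => π p (q0 p)) (fun p => 𝒜 p (q0 p))
    (fun p => hc _ _) fun γ => ?_).mono fun X hX => ?_
  · refine mem_of_superset (inter_mem hB (h1 γ)) fun p ⟨k1, k2⟩ => ?_
    obtain ⟨q, k3, k4⟩ := Ultrafilter.nonempty_of_mem (inter_mem (hq p k1) k2)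
    simp only [mem_ofPred_eq, Prod.mk.injEq] at k3 k4 ⊢
    rwa [← k3.1, ← k3.2.1]
  · refine mem_of_superset (inter_mem hB hX) fun p ⟨k1, k2⟩ => ?_
    obtain ⟨q, k3, k4⟩ := Ultrafilter.nonempty_of_mem (inter_mem (hq p k1) k2)
    simp only [mem_ofPred_eq, Prod.mk.injEq] at k3 k4 ⊢
    rwa [← k3.1, ← k3.2.2]

theorem result (hD : Diamond) :
    ∃ U : Ultrafilter ℕ, (∀ n, {n} ∉ U) ∧ TukeyTop U ∧ ¬ DiaMinus U := by
  obtain ⟨U, V, A, B, u1, v1, u2, v2, u3, v3, h⟩ := H55.TkF.main hD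
  let e : (ℕ × ℕ) × (ℕ × ℕ) ≃ ℕ := Denumerable.eqv _
  let P : Ultrafilter ℕ := U.bind fun p => V.map fun q => e (p, q)
  have hP : ∀ S : Set ℕ, S ∈ P ↔ {p | {q | e (p, q) ∈ S} ∈ V} ∈ U := fun S => Filter.mem_bind'
  refine ⟨P, fun n hn => ?_, ⟨fun z => {n | (e.symm n).1 ∈ A z ∧ (e.symm n).2 ∈ B z},
    fun z => ?_, fun I _ hI k => ?_⟩, ?_⟩
  · obtain ⟨p, hp⟩ := Ultrafilter.nonempty_of_mem ((hP _).1 hn)
    refine v1 (e.symm n).2 (mem_of_superset hp fun q hq => ?_)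
    have : e (p, q) = n := hq
    simp [← this]
  · refine (hP _).2 (mem_of_superset (u3 z) fun p hp => mem_of_superset (v3 z) fun q hq => ?_)
    simpa using And.intro hp hq
  · have k1 := (hP _).1 k
    refine h I hI (mem_of_superset k1 fun p hp => mem_iInter₂.2 fun z hz => ?_) ?_
    · obtain ⟨q, hq⟩ := Ultrafilter.nonempty_of_mem hp
      simpa using (mem_iInter₂.1 hq z hz).1
    · obtain ⟨p, hp⟩ := Ultrafilter.nonempty_of_mem k1
      refine mem_of_superset hp fun q hq => mem_iInter₂.2 fun z hz => ?_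
      simpa using (mem_iInter₂.1 hq z hz).2
  · rintro ⟨f, π, 𝒜, k1, k2, k3, k4⟩
    have := (prod u2 v2 (fun p q => f (e (p, q))) (fun p q => π (e (p, q)))
      (fun p q => 𝒜 (e (p, q))) (fun p q => k1 _) (fun p q => k2 _)
      fun g => (hP _).1 (k3 g)).mono
      (s₁ := {X : Set ℕ | {n | X ∩ Iio (f n) ∈ 𝒜 n} ∈ P}) fun X hX => (hP _).1 hX
    exact absurd (k4 ▸ le_aleph0_iff_set_countable.2 this) (not_le.2 aleph0_lt_continuum)

end Pool.Agent.Results.MP_a0a263_lc.DiamondGap
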